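import Pool.Agent.MP_1a6d78_lc.ED.All
import Pool.Agent.MP_1a6d78_lc.ED.OD
import Pool.Agent.MP_1a6d78_lc.PR.Kit

-- ======== part 0: formerly Pool.Agent.MP_1a6d78_lc.SC.Calc
section MrgPart0

/-! The calculus with a separate bound `q` for the number of calls. -/

namespace Pool.Agent.MP_1a6d78_lc.SC

open Function ED

/-- Bounds for the environment, the oracle and the loops with calls. -/
def Bq (κ q β : List Bool → ℕ) (x : List Bool) (g : Orc) (ρ : Env) (B : ℕ) : Prop :=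
  Bd κ x ρ B ∧ max (β x) (q x) ≤ B ∧ ∀ l, g l ≤ β x

/-- Lists of length at most `κ x`, polynomial time, polynomially many (in `q x`) calls. -/
def Lq (κ q β : List Bool → ℕ) (f : List Bool → Orc → Env → List ℕ) : Prop :=
  ∃ c : ℕ, (∀ x g ρ B, Bq κ q β x g ρ B → ∀ a ∈ f x g ρ, a ≤ pw B c) ∧
    ∀ (ℓ : ℕ → ℕ) (b : ℕ), (∀ i, 0 < ℓ i ∧ ℓ i < b) → ∃ p : PO,
      ∀ (x : List Bool) (g : Orc) (σ : ℕ → List ℕ) (B τ : ℕ), Bq κ q β x g (fun i => σ (ℓ i)) B →
        Len (κ x) (σ, 0) → σ 0 = [] → (∀ j, b ≤ j → σ j = []) →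
          Eo x (κ x) (β x) τ g p (σ, 0) (update σ b (f x g fun i => σ (ℓ i)), 0)
            (pw B c + pw (q x) c * τ)

def Nq (κ q β : List Bool → ℕ) (f : List Bool → Orc → Env → ℕ) : Prop :=
  Lq κ q β fun x g ρ => [f x g ρ]

variable {κ q β : List Bool → ℕ}

theorem Bq.mono {x : List Bool} {g : Orc} {ρ : Env} {B B' : ℕ} (h : Bq κ q β x g ρ B)
    (hB : B ≤ B') : Bq κ q β x g ρ B' := ⟨h.1.mono hB, h.2.1.trans hB, h.2.2⟩

theorem Bq.cons {x : List Bool} {g : Orc} {ρ : Env} {B : ℕ} (h : Bq κ q β x g ρ B)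
    {v : List ℕ} (hv : ∀ a ∈ v, a ≤ B) : Bq κ q β x g (cons v ρ) B := ⟨h.1.cons hv, h.2⟩

theorem Bq.hb {x : List Bool} {g : Orc} {ρ : Env} {B : ℕ} (h : Bq κ q β x g ρ B) : β x ≤ B :=
  (le_max_left _ _).trans h.2.1

theorem Bq.hq {x : List Bool} {g : Orc} {ρ : Env} {B : ℕ} (h : Bq κ q β x g ρ B) : q x ≤ B :=
  (le_max_right _ _).trans h.2.1

namespace M

theorem lift (f : List Bool → Env → List ℕ) (hf : Cm κ f) : Lq κ q β fun x _ ρ => f x ρ := by
  obtain ⟨c, h1, h2⟩ := hf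
  refine ⟨c, fun x _ ρ B hB => h1 x ρ B hB.1, fun ℓ b hℓ => ?_⟩
  obtain ⟨p, hp⟩ := h2 ℓ b fun i => (hℓ i).2
  exact ⟨up p, fun x g σ B τ hB hσ _ h0 =>
    (Exec.upO (hp x σ B hB.1 hσ h0)).weak (Nat.le_add_right _ _)⟩

theorem bo_ren {x : List Bool} {g : Orc} {ρ : Env} {B : ℕ} (r : ℕ → ℕ) (h : Bq κ q β x g ρ B) :
    Bq κ q β x g (fun i => ρ (r i)) B :=
  ⟨⟨h.1.1, h.1.2.1, h.1.2.2.1, fun i => h.1.2.2.2 (r i)⟩, h.2⟩

theorem ren (f : List Bool → Orc → Env → List ℕ) (r : ℕ → ℕ) (hf : Lq κ q β f) :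
    Lq κ q β fun x g ρ => f x g fun i => ρ (r i) := by
  obtain ⟨c, h1, h2⟩ := hf
  refine ⟨c, fun x g ρ B hB => h1 x g _ B (bo_ren r hB), fun ℓ b hℓ => ?_⟩
  obtain ⟨p, hp⟩ := h2 (fun i => ℓ (r i)) b fun i => hℓ (r i)
  exact ⟨p, fun x g σ B τ hB hσ hz h0 => hp x g σ B τ (bo_ren r hB) hσ hz h0⟩

theorem bind (e f : List Bool → Orc → Env → List ℕ) (he : Lq κ q β e) (hf : Lq κ q β f) :
    Lq κ q β fun x g ρ => f x g (cons (e x g ρ) ρ) := by
  obtain ⟨a, e1, e2⟩ := he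
  obtain ⟨c, f1, f2⟩ := hf
  have hb : ∀ x g ρ B, Bq κ q β x g ρ B → Bq κ q β x g (cons (e x g ρ) ρ) (B + pw B a) :=
    fun x g ρ B hB => (hB.mono (Nat.le_add_right _ _)).cons fun y hy =>
      (e1 x g ρ B hB y hy).trans (Nat.le_add_left _ _)
  have hv : ∀ x g ρ B, Bq κ q β x g ρ B →
      ∀ y ∈ f x g (cons (e x g ρ) ρ), y ≤ pw B ((a + 2) * c) :=
    fun x g ρ B hB y hy => (f1 x g _ _ (hb x g ρ B hB) y hy).trans (pw_pw B a c)
  refine ⟨20 + (a + (a + 2) * c + 1), fun x g ρ B hB y hy =>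
    (hv x g ρ B hB y hy).trans (pw_mono le_rfl (by omega)), fun ℓ b hℓ => ?_⟩
  have b0 : 0 < b := (hℓ 0).1.trans (hℓ 0).2
  obtain ⟨p, hp⟩ := e2 ℓ b hℓ
  obtain ⟨r, hq⟩ := f2 (PA.lay ℓ b) (b + 1) fun i => by
    cases i with
    | zero => exact ⟨b0, Nat.lt_succ_self b⟩
    | succ i => exact ⟨(hℓ i).1, Nat.lt_succ_of_lt (hℓ i).2⟩
  refine ⟨.seq p (.seq r (up (.seq (clr b) (mvLst (b + 1) b (b + 2))))),
    fun x g σ B τ hB hσ hz h0 => ?_⟩
  have a1 := hp x g σ B τ hB hσ hz h0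
  have g1 := a1.goodO hσ
  have hρ : (fun i => update σ b (e x g fun i => σ (ℓ i)) (PA.lay ℓ b i)) =
      cons (e x g fun i => σ (ℓ i)) fun i => σ (ℓ i) := by
    funext i
    cases i with
    | zero => exact update_self _ _ _
    | succ i => exact update_of_ne (hℓ i).2.ne _ _
  have a2 := hq x g (update σ b (e x g fun i => σ (ℓ i))) (B + pw B a) τ (hρ ▸ hb x g _ B hB) g1
    (by rw [update_of_ne b0.ne]; exact hz)
    fun j hj => by rw [update_of_ne (by omega)]; exact h0 j (by omega)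
  rw [hρ] at a2
  have g2 := a2.goodO g1
  have a3 := ex_clr (x := x) g2 b
  have g3 := a3.good g2
  have a4 := ex_mvLst (x := x) g3 (i := b + 1) (j := b) (t := b + 2) (B := pw B ((a + 2) * c))
    (by omega) (by omega) (by omega)
    (by rw [update_of_ne (by omega), update_self]; exact hv x g _ B hB) (update_self _ _ _)
    (by rw [update_of_ne (by omega), update_of_ne (by omega), update_of_ne (by omega)]
        exact h0 _ (by omega))
  refine (a1.seq (a2.seq (Exec.upO (a3.seq a4)))).of_eq ?_ ?_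
  · refine congrArg (·, 0) (funext fun k => ?_)
    by_cases k0 : k = b
    · rw [k0, update_self, update_self, update_of_ne (by omega), update_self]
    · rw [update_of_ne k0, update_of_ne k0]
      by_cases k1 : k = b + 1
      · rw [k1, update_self, h0 _ (by omega)]
      · rw [update_of_ne k1, update_of_ne k0, update_of_ne k1, update_of_ne k0]
  · have h1 := PA.time B (κ x) a ((a + 2) * c) hB.1.2.1
    have h2 := pw_pw B a c
    have h3 := OA.calls (q x) τ (a := a) (c := c) (n := 20 + (a + (a + 2) * c + 1))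
      (by rw [add_mul]; omega)
    omega

theorem ifz (e f : List Bool → Orc → Env → List ℕ) (he : Lq κ q β e) (hf : Lq κ q β f) :
    Lq κ q β fun x g ρ => if hd (ρ 0) = 0 then e x g ρ else f x g ρ := by
  obtain ⟨a, f1, f2⟩ := he
  obtain ⟨c, g1, g2⟩ := hf
  refine ⟨a + c + 1, fun x g ρ B hB y hy => ?_, fun ℓ b hℓ => ?_⟩
  · by_cases h : hd (ρ 0) = 0
    · simp only [if_pos h] at hy
      exact (f1 x g ρ B hB y hy).trans (pw_mono le_rfl (by omega))
    · simp only [if_neg h] at hy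
      exact (g1 x g ρ B hB y hy).trans (pw_mono le_rfl (by omega))
  · obtain ⟨p, hp⟩ := f2 ℓ b hℓ
    obtain ⟨r, hq⟩ := g2 ℓ b hℓ
    refine ⟨.ite (.nz (ℓ 0)) r p, fun x g σ B τ hB hσ hz h0 => ?_⟩
    have h1 := pw_add B a c
    have h2 := one_le_pw B a
    have h3 := one_le_pw B c
    have h4 := OA.calls (q x) τ (a := a) (c := c) le_rfl
    by_cases h : hd (σ (ℓ 0)) = 0
    · simp only [if_pos h]
      exact (Exq.iteF (by simp [tst1, h]) (hp x g σ B τ hB hσ hz h0)).weak (by omega)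
    · simp only [if_neg h]
      exact (Exq.iteT (by simp [tst1, h]) (hq x g σ B τ hB hσ hz h0)).weak (by omega)

theorem call (e : List Bool → Orc → Env → List ℕ) (he : Lq κ q β e)
    (hβ : ∀ x g ρ, ∀ a ∈ e x g ρ, a ≤ β x) : Nq κ q β fun x g ρ => g (e x g ρ) := by
  obtain ⟨a, -, e2⟩ := he
  refine ⟨20 + (a + 2 + 1), fun x g ρ B hB y hy => ?_, fun ℓ b hℓ => ?_⟩
  · have h1 := le_pw B (c := 20 + (a + 2 + 1)) (by omega)
    have h2 := (hB.2.2 (e x g ρ)).trans hB.hb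
    have h3 : y = g (e x g ρ) := List.mem_singleton.1 hy
    omega
  have b0 : 0 < b := (hℓ 0).1.trans (hℓ 0).2
  obtain ⟨p, hp⟩ := e2 ℓ b hℓ
  refine ⟨.seq p (.seq (up (mvLst b 0 (b + 1))) (.seq (.act none) (up (mvTop 0 b)))),
    fun x g σ B τ hB hσ hz h0 => ?_⟩
  have a1 := hp x g σ B τ hB hσ hz h0
  have g1 := a1.goodO hσ
  have a2 := ex_mvLst (x := x) g1 (i := b) (j := 0) (t := b + 1) (B := B)
    (by omega) (by omega) (by omega)
    (by rw [update_self]; exact fun y hy => (hβ x g _ y hy).trans hB.hb)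
    (by rw [update_of_ne b0.ne]; exact hz)
    (by rw [update_of_ne (by omega)]; exact h0 _ (by omega))
  have g2 := a2.good g1
  have a3 := eo_call (x := x) (β := β x) (τ := τ) (g := g) g2 hB.1.1
    (by rw [update_self, update_self]; exact hβ x g _)
  have g3 := a3.goodO g2
  have a4 := ex_mvTop (x := x) g3 (i := 0) (j := b) b0.ne (update_self _ _ _)
    (by rw [update_of_ne b0.ne', update_of_ne b0.ne', update_self]; exact hB.1.1)
  refine (a1.seq ((Exec.upO a2).seq (a3.seq (Exec.upO a4)))).of_eq ?_ ?_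
  · refine congrArg (·, 0) (funext fun k => ?_)
    by_cases k0 : k = b
    · rw [k0, update_self, update_self, update_self, update_self, update_of_ne b0.ne',
        update_of_ne b0.ne', update_self]
    · rw [update_of_ne k0, update_of_ne k0]
      by_cases k1 : k = 0
      · rw [k1, update_self, hz]
      · rw [update_of_ne k1, update_of_ne k1, update_of_ne k1, update_of_ne k0, update_of_ne k0]
  · have h1 := PA.time B (κ x) a 2 hB.1.2.1
    have h2 := OA.calls (q x) τ (a := a) (c := 0) (n := 20 + (a + 2 + 1)) (by omega)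
    have h3 : pw B 2 = B * B + 4 * B + 4 := by unfold pw; ring
    have h4 : κ x * (3 * B + 4) ≤ κ x * (3 * pw B 2 + 4) := Nat.mul_le_mul_left _ (by omega)
    have h5 := (hB.2.2 (e x g fun i => σ (ℓ i))).trans hB.hb
    have h6 : pw (q x) 0 * τ = τ := one_mul τ
    rw [update_self, update_self]
    omega

open PC OC in
theorem iter (nn : List Bool → Orc → Env → ℕ) (z f : List Bool → Orc → Env → List ℕ) :
    Nq κ q β nn → (∀ x g ρ, nn x g ρ ≤ q x) → Lq κ q β z → Lq κ q β f →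
    (∃ c, ∀ x g ρ B, Bq κ q β x g ρ B → ∀ m ≤ nn x g ρ,
      ∀ a ∈ itr (fun m acc => f x g (cons acc (cons [m] ρ))) (z x g ρ) m, a ≤ pw B c) →
    Lq κ q β fun x g ρ =>
      itr (fun m acc => f x g (cons acc (cons [m] ρ))) (z x g ρ) (nn x g ρ) := by
  rintro ⟨cn, -, hpn⟩ hnκ ⟨cz, -, hpz⟩ ⟨c, -, hp⟩ ⟨c', hc'⟩
  refine ⟨cz + cn + 1 + (c' + 2) * (c + 4) + 1, fun x g ρ B hB a ha =>
    (hc' x g ρ B hB _ le_rfl a ha).trans (pw_mono le_rfl (by nlinarith)), fun ℓ b hℓ => ?_⟩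
  have h0 := hℓ 0
  obtain ⟨p, hp⟩ := hp (lay ℓ b) (b + 3) (fun i => by
    match i with
    | 0 => simp only [lay]; omega
    | 1 => simp [lay]
    | i + 2 => have := hℓ i; simp only [lay]; omega)
  obtain ⟨pz, hpz⟩ := hpz ℓ b hℓ
  obtain ⟨pn, hpn⟩ := hpn ℓ (b + 2) fun i => ⟨(hℓ i).1, by have := hℓ i; omega⟩
  refine ⟨OC.prog pz pn p b, fun x g σ B τ hB hL hσ hz => ?_⟩
  have hK : 1 ≤ κ x := hB.1.1
  set ρ : Env := fun i => σ (ℓ i) with hρ
  set n := nn x g ρ with hn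
  set acc := itr (fun m acc => f x g (cons acc (cons [m] ρ))) (z x g ρ) with hacc
  have hnK : n ≤ q x := hnκ x g ρ
  have hnB : n ≤ B := hnK.trans hB.hq
  have hent : ∀ m ≤ n, ∀ a ∈ acc m, a ≤ B + pw B c' := fun m hm a ha =>
    (hc' x g ρ B hB m hm a ha).trans (Nat.le_add_left _ _)
  have e1 := hpz x g σ B τ hB hL hσ hz
  have g1 := e1.goodO hL
  have e2 := ex_push (x := x) g1 (b + 1) (by simpa [hz (b + 1) (by omega)] using hK)
  have g2 := e2.good g1
  have hr : (fun i => update (update σ b (z x g ρ)) (b + 1)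
      (0 :: update σ b (z x g ρ) (b + 1)) (ℓ i)) = ρ := by
    funext i
    have := hℓ i
    rw [update_of_ne (by omega), update_of_ne (by omega)]
  have e3 := hpn x g _ B τ (hr.symm ▸ hB) g2
    (by rw [update_of_ne (by omega), update_of_ne (by omega), hσ])
    (fun j hj => by rw [update_of_ne (by omega), update_of_ne (by omega), hz j (by omega)])
  rw [hr] at e3
  have e3' := e3.of_eq (s'' := (st σ b (acc 0) 0 (n - 0), 0)) (by
    simp [st, hz (b + 1) (by omega), hacc, itr, hn, hρ]) le_rfl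
  have step : ∀ m < n, Len (κ x) (st σ b (acc m) m (n - m), 0) →
      Eo x (κ x) (β x) τ g (.seq p (up (rest b))) (st σ b (acc m) m (n - m), 0)
        (st σ b (acc (m + 1)) (m + 1) (n - (m + 1)), 0)
        (pw (B + pw B c') c + pw (q x) c * τ +
          (2 * κ x + 1 + (2 * (κ x * (3 * (B + pw B c') + 4) + 1) + 2))) := by
    intro m hm gd
    have e := hp x g (st σ b (acc m) m (n - m)) (B + pw B c') τ (by
      rw [st_lay fun i => (hℓ i).2]
      exact ((hB.mono (Nat.le_add_right _ _)).cons (by simp; omega)).cons (hent m hm.le)) gd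
      (by
        simp only [st]
        rw [update_of_ne (by omega), update_of_ne (by omega), update_of_ne (by omega), hσ])
      (fun j hj => by rw [st_hi _ _ _ hj]; exact hz j (by omega))
    rw [st_lay fun i => (hℓ i).2] at e
    exact e.seq (ex_rest hz (e.goodO gd) (hent (m + 1) hm)).upO
  have len : ∀ m ≤ n, Len (κ x) (st σ b (acc m) m (n - m), 0) := by
    intro m
    induction m with
    | zero => exact fun _ => e3'.goodO g2
    | succ m ih => exact fun hm => (step m hm (ih (by omega))).goodO (ih (by omega))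
  have e4 := Exq.loop_seq (R := Ro x (κ x) (β x) τ g) (tst := tst1 x) (c := .nz (b + 2))
    (p := .seq p (up (rest b))) (fun m => (st σ b (acc m) m (n - m), 0)) n _
    (fun m hm => ⟨by simp [tst1, st, hd]; omega, step m hm (len m hm.le)⟩)
    (by simp [tst1, st, hd])
  have e5 := ex_pop (x := x) (len n le_rfl) (b + 1)
  have e6 := ex_pop (x := x) (e5.good (len n le_rfl)) (b + 2)
  refine (e1.seq (e2.upO.seq (e3'.seq (e4.seq (e5.seq e6).upO)))).of_eq ?_ ?_
  · congr 1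
    funext k
    have a1 := hz (b + 1) (by omega)
    have a2 := hz (b + 2) (by omega)
    simp only [st, update_apply]
    split_ifs <;> first | rfl | omega | simp_all
  · have t1 := (cost hB.1.2.1 hnB (Nat.le_add_right B (pw B c'))
      (one_le_pw (B + pw B c') c)).trans ((pw_mul (B + pw B c') c 4).le.trans (pw_pw _ _ _))
    have t2 := pw_add B cz cn
    have t3 := pw_add B (cz + cn + 1) ((c' + 2) * (c + 4))
    have t4 := pw_add (q x) cz cn
    have t5 := pw_add (q x) (cz + cn + 1) ((c' + 2) * (c + 4))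
    have t6 : n * pw (q x) c ≤ pw (q x) ((c' + 2) * (c + 4)) :=
      (Nat.mul_le_mul_right _ (hnK.trans ((Nat.le_add_right _ 2).trans
        (le_pw (q x) (c := 1) le_rfl)))).trans
        ((pw_mul _ _ _).le.trans (pw_mono le_rfl (by nlinarith)))
    have t7 := Nat.mul_le_mul_right τ (show pw (q x) cz + pw (q x) cn + n * pw (q x) c ≤
      pw (q x) (cz + cn + 1 + (c' + 2) * (c + 4) + 1) by omega)
    have t8 := Nat.zero_le (κ x * (13 * B + 13))
    linarith [Nat.zero_le n]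

open PD in
theorem tabq {k b : List Bool → ℕ} (n : List Bool → ℕ) (f : List Bool → Orc → Env → ℕ) :
    (∀ x, n x ≤ k x) → (∀ x, n x ≤ q x) → Cn k (fun x _ => n x) → Nq k q b f →
    Lq k q b fun x g ρ => tab (n x) fun e => f x g (cons [e] ρ) := by
  intro hnk hnq ⟨cn, _, Pn⟩ ⟨cf, bf, Pf⟩
  have hbd : ∀ x o ρ B, Bq k q b x o ρ B → ∀ e < n x, Bq k q b x o (cons [e] ρ) B := by
    intro x o ρ B hB e he
    refine hB.cons fun a ha => ?_
    have h1 := hnk x
    have h2 := hB.1.2.1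
    rw [List.mem_singleton.1 ha]
    omega
  refine ⟨cn + cf + 13, fun x o ρ B hB a ha => ?_, fun ℓ t hℓ => ?_⟩
  · obtain ⟨e, he, rfl⟩ := List.mem_map.1 ha
    exact (bf x o _ B (hbd x o ρ B hB e (List.mem_range.1 he)) _
      (List.mem_singleton_self _)).trans (pw_mono le_rfl (by omega))
  obtain ⟨pn, hpn⟩ := Pn ℓ (t + 1) fun i => (hℓ i).2.trans (Nat.lt_succ_self t)
  obtain ⟨pf, hpf⟩ := Pf (lay (t + 1) ℓ) (t + 2) fun i => by
    cases i with
    | zero => exact ⟨Nat.succ_pos _, Nat.lt_succ_self _⟩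
    | succ i => have := hℓ i; change 0 < ℓ i ∧ ℓ i < t + 2; omega
  refine ⟨.seq (up pn) (.seq (.loop (.nz (t + 1)) (.seq (up (.act (.dec (t + 1))))
    (.seq pf (up (mvTop (t + 2) t))))) (up (.act (.pop (t + 1))))),
    fun x o σ B τ hB hσ hz0 hz => ?_⟩
  have hK : 1 ≤ k x := hB.1.1
  have hN : n x ≤ k x := hnk x
  have ht : 0 < t := (hℓ 0).1.trans (hℓ 0).2
  have hne : ∀ i, ℓ i ≠ t := fun i => (hℓ i).2.ne
  have hne1 : ∀ i, ℓ i ≠ t + 1 := fun i => by have := hℓ i; omega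
  have e1 := Exec.upO (β := b x) (τ := τ) (g := o)
    (hpn x σ B hB.1 hσ fun j hj => hz j (by omega))
  set g : ℕ → ℕ := fun e => f x o (cons [e] fun i => σ (ℓ i)) with hg
  have hL : ∀ m ≤ n x, ∀ u : ℕ,
      Len (k x) (update (update σ t ((List.range' (n x - m) m).map g)) (t + 1) [u], 0) :=
    fun m hm u => Len.upd (h := 0) (hσ.upd (h' := 0) t (by simp; omega)) (t + 1) (by simpa using hK)
  have e2 := Exq.loop_seq (R := Ro x (k x) (b x) τ o) (tst := tst1 x) (c := .nz (t + 1))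
    (p := .seq (up (.act (.dec (t + 1)))) (.seq pf (up (mvTop (t + 2) t))))
    (fun m => (update (update σ t ((List.range' (n x - m) m).map g)) (t + 1) [n x - m], 0))
    (n x) (4 * pw B cf + 4 + pw (q x) cf * τ)
    (fun m hm => ⟨by simp [tst1, hd]; omega, by
      have a1 := ex_dec (x := x) (hL m hm.le (n x - m)) (i := t + 1) (a := n x - m) (l := [])
        (by simp)
      rw [update_idem, Nat.sub_sub] at a1
      have g1 := hL m hm.le (n x - (m + 1))
      have henv : (fun i => update (update σ t ((List.range' (n x - m) m).map g)) (t + 1)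
          [n x - (m + 1)] (lay (t + 1) ℓ i)) = cons [n x - (m + 1)] fun i => σ (ℓ i) := by
        funext i
        cases i with
        | zero => simp [lay, cons]
        | succ i => simp [lay, cons, update_of_ne, hne, hne1]
      have hb := hbd x o _ B hB (n x - (m + 1)) (by omega)
      have a2 := hpf x o _ B τ (henv ▸ hb) g1
        (by rw [update_of_ne (by omega), update_of_ne (by omega)]; exact hz0) fun j hj => by
        rw [update_of_ne (by omega), update_of_ne (by omega)]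
        exact hz j (by omega)
      rw [henv] at a2
      have hv : g (n x - (m + 1)) ≤ pw B cf := bf x o _ B hb _ (List.mem_singleton_self _)
      have a3 := ex_mvTop (x := x) (a2.goodO g1) (i := t + 2) (j := t) (a := g (n x - (m + 1)))
        (l := []) (by omega) (by simp [hg]) (by simp; omega)
      refine (a1.upO.seq (a2.seq a3.upO)).of_eq ?_ (by omega)
      congr 1
      funext j
      have hr : List.range' (n x - (m + 1)) (m + 1) =
          (n x - (m + 1)) :: List.range' (n x - m) m := by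
        rw [List.range'_succ, show n x - (m + 1) + 1 = n x - m by omega]
      have h2 := hz (t + 2) (by omega)
      by_cases c0 : j = t
      · subst c0; simp [hr]
      by_cases c1 : j = t + 1
      · subst c1; simp
      by_cases c2 : j = t + 2
      · subst c2; simp [h2]
      simp [update_of_ne, c0, c1, c2]⟩)
    (by simp [tst1, hd])
  have e3 := ex_pop (x := x) (hL (n x) le_rfl (n x - n x)) (t + 1)
  have h0 : update σ (t + 1) [n x] =
      update (update σ t ((List.range' (n x - 0) 0).map g)) (t + 1) [n x - 0] := by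
    have h1 : (List.range' (n x - 0) 0).map g = σ t := (hz t le_rfl).symm
    rw [h1, update_eq_self, Nat.sub_zero]
  rw [h0] at e1
  refine (e1.seq (e2.seq e3.upO)).of_eq ?_ (OD.time B _ _ cn cf τ (hnq x) hB.hq)
  congr 1
  funext j
  have h1 := hz (t + 1) (by omega)
  by_cases c0 : j = t
  · subst c0; simp [tab, List.range_eq_range', hg]
  by_cases c1 : j = t + 1
  · subst c1; simp [h1]
  simp [update_of_ne, c0, c1]

end M

end Pool.Agent.MP_1a6d78_lc.SC

end MrgPart0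

-- ======== part 1: formerly Pool.Agent.MP_1a6d78_lc.SC.RecQ
section MrgPart1

/-! From the calculus with few calls to a Turing machine. -/

namespace Pool.Agent.MP_1a6d78_lc.SC

open Function ED

namespace M

open Frm in
theorem frm (p r : PO) : ∃ (p' r' : PO) (c : ℕ), ∀ (x : List Bool) (K β P Q P' d : ℕ)
    (F : Orc → List ℕ → ℕ) (s : S1), 1 ≤ K → (∀ g l, F g l ≤ β) →
    (∀ (g : List ℕ → ℕ) (τ : ℕ) (l : List ℕ), (∀ l, g l ≤ β) → (∀ a ∈ l, a ≤ β) → l.length ≤ K →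
      Eo x K β τ g r (sole 0 l) (sole 0 [F g l]) (P + Q * τ)) →
    (∀ τ, Eo x K β τ (rc F d) p (fun _ => [], 0) s (P' + P' * τ)) →
      ∃ t, Er x ((K + 1) * (d + 2)) r' (d + 1) p' (sole 1 [d]) t
        ((P' + P' * ((P + K + 1) * (c * (Q + 1)) ^ (d + 1))) * 3) ∧
        ∀ m, t.1 (2 * m + 2) = s.1 m := by
  obtain ⟨M, hM⟩ := p.exists_bound ix
  obtain ⟨N, hN⟩ := r.exists_bound ix
  refine ⟨p.bind f1 g1, body (M + N) r, 4 * (M + N) + 6 + 8, ?_⟩
  intro x K β P Q P' d F s h1 hF hq hp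
  have hK : (K + 1) * (d + 1) ≤ (K + 1) * (d + 2) := Nat.mul_le_mul_left _ (by omega)
  have hK' : K + 1 ≤ (K + 1) * (d + 1) := Nat.le_mul_of_pos_right _ (by omega)
  obtain ⟨t, e, z⟩ := run (U := fun _ => []) (V := fun _ => []) (t := sole 1 [d])
    (Frm.call (K' := (K + 1) * (d + 2)) h1 hF (r.all_mono (fun a h => by omega) hN) hq d 0
      (by omega))
    (by omega) ⟨fun _ => rfl, fun _ => rfl, rfl, rfl, fun _ => le_rfl, fun _ => le_rfl⟩
    (p.all_mono (Q := fun a => ix a < M + N) (fun a h => by omega) hM) (hp _)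
    ⟨rfl, rfl, rfl, fun m => by simp [sole], fun m => by simp [sole]⟩
    (fun _ => Nat.zero_le _) fun _ _ => rfl
  exact ⟨t, e, fun m => (z.val m).trans (List.append_nil _)⟩

theorem time1 {B K Q d cD c1 c2 cA E : ℕ} (hK : K ≤ B) (hQ : Q ≤ B) :
    (pw B cD + (pw B cA + pw B cA * ((pw B 4 + pw B c1 + K + 1) *
      (c2 * (pw Q c1 + 1)) ^ (d + 1))) * 3 + 1) * E ≤
      pw B (cD + cA + 2 * c1 + c2 + 14 + E) * pw Q ((cD + cA + 2 * c1 + c2 + 14 + E) * d) := by
  set e := c2 + c1 + 1 with he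
  have h1 : c2 * (pw Q c1 + 1) ≤ pw Q e := by
    have a1 := two_mul_pw Q c1
    have a2 := one_le_pw Q c1
    calc _ ≤ pw Q c2 * pw Q (c1 + 1) := Nat.mul_le_mul (const_le_pw Q c2) (by omega)
      _ = _ := by rw [pw_mul, he, add_assoc]
  have h2 : (c2 * (pw Q c1 + 1)) ^ (d + 1) ≤ pw B e * pw Q (e * d) := by
    calc _ ≤ pw Q e ^ (d + 1) := Nat.pow_le_pow_left h1 _
      _ = pw Q e * pw Q (e * d) := by
        rw [pw_mul, pw, pw, ← pow_mul]; congr 1; ring
      _ ≤ _ := Nat.mul_le_mul_right _ (pw_mono hQ le_rfl)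
  have h3 : pw B 4 + pw B c1 + K + 1 ≤ pw B (c1 + 7) := by
    have a1 := pw_add B 4 c1
    have a2 := pw_add B (4 + c1 + 1) 1
    have a3 := le_pw B (c := 1) le_rfl
    rw [show c1 + 7 = 4 + c1 + 1 + 1 + 1 by ring]
    omega
  have h5 := Nat.mul_le_mul h3 h2
  rw [← mul_assoc, pw_mul] at h5
  have h5' := Nat.mul_le_mul_left (pw B cA) h5
  rw [← mul_assoc (pw B cA) (pw B _), pw_mul] at h5'
  obtain ⟨T, hT⟩ : ∃ T, T = pw B (cD + cA + (c1 + 7 + e)) * pw Q (e * d) := ⟨_, rfl⟩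
  have u : ∀ c, c ≤ cD + cA + (c1 + 7 + e) → pw B c * pw Q (e * d) ≤ T := fun c h =>
    hT ▸ Nat.mul_le_mul_right _ (pw_mono le_rfl h)
  have u' : ∀ c, c ≤ cD + cA + (c1 + 7 + e) → pw B c ≤ T := fun c h =>
    (Nat.le_mul_of_pos_right _ (one_le_pw Q _)).trans (u c h)
  have u1 := u' cD (by omega)
  have u2 := u' cA (by omega)
  have u3 := u (cA + (c1 + 7 + e)) (by omega)
  have u4 := (one_le_pw B 0).trans (u' 0 (by omega))
  have h8 : 2 ^ 3 ≤ pw B 3 := Nat.pow_le_pow_left (by omega) 3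
  calc _ ≤ T * pw B 3 * pw B E :=
        Nat.mul_le_mul (le_trans (by omega) (Nat.mul_le_mul_left T h8)) (const_le_pw B E)
    _ = pw B (cD + cA + (c1 + 7 + e) + 3 + E) * pw Q (e * d) := by
        rw [hT]; unfold pw; ring
    _ ≤ _ := Nat.mul_le_mul (pw_mono le_rfl (by omega))
        (pw_mono le_rfl (Nat.mul_le_mul_right _ (by omega)))

theorem space {a B K Q d E c : ℕ} (hc : (2 * E + 3) * (2 * a + 2) ≤ c) :
    ((K + 1) * (d + 2) + E * (d + 1 + 1) + 1) * (Rec.bits a B Q d + 1) ≤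
      c * (K + 1) * (d + 1) * (Nat.log 2 (B + 2) + d * Nat.log 2 (Q + 2) + 1) := by
  have h1 : 1 ≤ Nat.log 2 (Q + 2) := Nat.log_pos (by omega) (by omega)
  have h2 : (K + 1) * (d + 2) + E * (d + 1 + 1) + 1 ≤ (2 * E + 3) * ((K + 1) * (d + 1)) := by
    nlinarith [Nat.zero_le (K * d), Nat.zero_le (E * K), Nat.zero_le (E * d),
      Nat.zero_le (E * K * d)]
  have h3 : Rec.bits a B Q d + 1 ≤
      (2 * a + 2) * (Nat.log 2 (B + 2) + d * Nat.log 2 (Q + 2) + 1) := by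
    unfold Rec.bits
    have := Nat.mul_le_mul_left (a * d) h1
    nlinarith [Nat.zero_le (a * Nat.log 2 (B + 2)), Nat.zero_le (Nat.log 2 (B + 2)),
      Nat.zero_le (d * Nat.log 2 (Q + 2))]
  calc _ ≤ (2 * E + 3) * ((K + 1) * (d + 1)) *
        ((2 * a + 2) * (Nat.log 2 (B + 2) + d * Nat.log 2 (Q + 2) + 1)) := Nat.mul_le_mul h2 h3
    _ = (2 * E + 3) * (2 * a + 2) * (K + 1) * (d + 1) *
        (Nat.log 2 (B + 2) + d * Nat.log 2 (Q + 2) + 1) := by ring
    _ ≤ _ := by gcongr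

end M

open Rec in
/-- The body `F` of the recursion makes few calls (`q`), the main program `A` many (`q'`). -/
theorem recQ (κ q q' β D : List Bool → ℕ) (F : List Bool → Orc → List ℕ → ℕ)
    (A : List Bool → Orc → ℕ) : Nq κ q β (fun x g ρ => F x g (ρ 0)) →
    Nq κ q' β (fun x g _ => A x g) → (∀ x g l, F x g l ≤ β x) → Cn κ (fun x _ => D x) →
    ∃ (M : TM) (c : ℕ), ∀ (x : List Bool) (B : ℕ),
      1 ≤ κ x → κ x ≤ B → x.length ≤ B → β x ≤ B → q x ≤ B → q' x ≤ B → D x ≤ B →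
        M.out (M.run x (pw B c * pw (q x) (c * D x))).q = some (A x (rc (F x) (D x)) != 0) ∧
          ∀ t i, (M.run x t).head i ≤
            c * (κ x + 1) * (D x + 1) * (Nat.log 2 (B + 2) + D x * Nat.log 2 (q x + 2) + 1) := by
  intro ⟨cF, _, kF⟩ ⟨cA, _, kA⟩ hβ ⟨cD, _, kD⟩
  obtain ⟨pF, kF⟩ := kF (fun _ => 1) 2 fun _ => by omega
  obtain ⟨pA, kA⟩ := kA (fun _ => 1) 2 fun _ => by omega
  obtain ⟨pD, kD⟩ := kD (fun _ => 0) 1 fun _ => Nat.one_pos
  obtain ⟨p', r', c2, hF⟩ := M.frm pA (body pF)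
  obtain ⟨p3, E, hI⟩ := intS (.seq (up pD) p') r'
  obtain ⟨p2, t2, hp2⟩ := l12 p3 (.nz 7)
  obtain ⟨p0, hp0⟩ := l20 p2
  obtain ⟨M, hM⟩ := ctl p0 t2
  obtain ⟨a, ha⟩ : ∃ a, a = cD + cA + 2 * cF + c2 + 14 + E := ⟨_, rfl⟩
  refine ⟨M, (2 * E + 3) * (2 * a + 2) + (2 * a + 8), fun x B k1 k2 k3 k4 k6 k7 k5 => ?_⟩
  have z : Len (κ x) ((fun _ => [] : ℕ → List ℕ), 0) := fun _ => Nat.zero_le _
  have b0 : Bd κ x (fun _ => []) B := ⟨k1, k2, k3, fun _ _ m => absurd m List.not_mem_nil⟩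
  obtain ⟨t, e1, ht⟩ := hF x (κ x) (β x) (pw B 4 + pw B cF) (pw (q x) cF) (pw B cA) (D x)
    (F x) (update (fun _ => []) 2 [A x (rc (F x) (D x))], 0) k1 (hβ x)
    (fun g τ l hg hl hlK => by
      have hl' : ∀ a ∈ l, a ≤ B := fun a m => (hl a m).trans k4
      have e := kF x g (sole 1 l).1 B τ
        ⟨⟨k1, k2, k3, fun _ => by simpa [sole] using hl'⟩, max_le k4 k6, hg⟩
        (z.upd 1 hlK) (by simp [sole]) fun j hj => by simp [sole, update_of_ne (show j ≠ 1 by omega)]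
      have e' : Eo x (κ x) (β x) τ g pF (sole 1 l) (update (sole 1 l).1 2 [F x g l], 0)
          (pw B cF + pw (q x) cF * τ) := e.of_eq (by simp [sole]) le_rfl
      exact (body_ok k1 k2 ((hβ x g l).trans k4) hl' hlK e').weak (by omega))
    fun τ => (kA x (rc (F x) (D x)) (fun _ => []) B τ ⟨b0, max_le k4 k7, rc_le (hβ x) _⟩ z rfl
      fun _ _ => rfl).weak (Nat.add_le_add_left (Nat.mul_le_mul_right _ (pw_mono k7 le_rfl)) _)
  have e0 : Ex x ((κ x + 1) * (D x + 2)) pD (fun _ => [], 0) (sole 1 [D x]) (pw B cD) :=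
    (kD x (fun _ => []) B b0 z fun _ _ => rfl).mono fun s h => h.mono (by nlinarith)
  have e3 := (hI x _ _ _ _ (e0.upR.seq e1)).weak (SC.M.time1 (E := E) k2 k6)
  rw [← ha] at e3
  obtain ⟨s2, e2, u2⟩ := hp2 x _ _ _ _ (lt_two a B (q x) (D x)) e3
  obtain ⟨s0, e0, u0⟩ := hp0 x _ _ _ e2
  have hT := time2 (a := a) (c := (2 * E + 3) * (2 * a + 2) + (2 * a + 8)) k6 k5 (by omega)
  obtain ⟨m1, m2⟩ := hM x _ s0 _ (e0.weak (Nat.le_sub_one_of_lt hT))
  rw [Nat.sub_add_cancel (by omega), u0, u2] at m1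
  refine ⟨?_, fun t i => (m2 t i).trans (SC.M.space (by omega))⟩
  have h6 : t.1 6 = [A x (rc (F x) (D x))] := (ht 2).trans (by simp)
  simpa [tst1, hd, cons, h6] using m1

end Pool.Agent.MP_1a6d78_lc.SC

end MrgPart1

-- ======== part 2: formerly Pool.Agent.MP_1a6d78_lc.SC.Kit
section MrgPart2

/-! Closure rules for the calculus with few calls. -/

namespace Pool.Agent.MP_1a6d78_lc.SC

open Classical ED

def Pq (κ q β : List Bool → ℕ) (P : List Bool → Orc → Env → Prop) : Prop :=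
  Nq κ q β fun x g ρ => if P x g ρ then 1 else 0

def Fq (κ q β : List Bool → ℕ) (f : List Bool → Orc → Env → ℕ → ℕ) : Prop :=
  Nq κ q β fun x g ρ => f x g (tl ρ) (hd (ρ 0))

def P1q (κ q β : List Bool → ℕ) (P : List Bool → Orc → Env → ℕ → Prop) : Prop :=
  Pq κ q β fun x g ρ => P x g (tl ρ) (hd (ρ 0))

/-- `a :: l`, cut or padded to length `n`, entries cut at `b`. -/
def pk (n b a : ℕ) (l : List ℕ) : List ℕ :=
  tab n fun e => min (if e = 0 then a else gt l (e - 1)) b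

theorem gt_tab {n e : ℕ} (f : ℕ → ℕ) (h : e < n) : gt (tab n f) e = f e := by
  simp [gt, tab, List.getD_eq_getElem?_getD, h]

theorem gt_tab' {n e : ℕ} (f : ℕ → ℕ) (h : n ≤ e) : gt (tab n f) e = 0 := by
  simp [gt, tab, List.getD_eq_getElem?_getD, h]

theorem pk_zero {n b a : ℕ} (l : List ℕ) (h : 0 < n) (ha : a ≤ b) : gt (pk n b a l) 0 = a := by
  simp [pk, gt_tab _ h, ha]

theorem pk_succ {n b e : ℕ} (a : ℕ) {l : List ℕ} (h : e + 1 < n) (hl : gt l e ≤ b) :
    gt (pk n b a l) (e + 1) = gt l e := by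
  simp [pk, gt_tab _ h, hl]

theorem pk_le (n b a : ℕ) (l : List ℕ) : ∀ y ∈ pk n b a l, y ≤ b := fun y hy => by
  obtain ⟨e, _, rfl⟩ := List.mem_map.1 hy
  exact min_le_right _ _

namespace Q

variable {κ q β : List Bool → ℕ}

theorem cgL {f f' : List Bool → Orc → Env → List ℕ} (h : Lq κ q β f)
    (e : ∀ x g ρ, f x g ρ = f' x g ρ) : Lq κ q β f' := by
  have : f = f' := funext fun x => funext fun g => funext fun ρ => e x g ρ
  exact this ▸ h

theorem cg {f f' : List Bool → Orc → Env → ℕ} (h : Nq κ q β f)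
    (e : ∀ x g ρ, f x g ρ = f' x g ρ) : Nq κ q β f' :=
  cgL h fun x g ρ => congrArg (fun a => [a]) (e x g ρ)

theorem cgP {P R : List Bool → Orc → Env → Prop} (h : Pq κ q β P)
    (e : ∀ x g ρ, P x g ρ ↔ R x g ρ) : Pq κ q β R := by
  have : P = R := funext fun x => funext fun g => funext fun ρ => propext (e x g ρ)
  exact this ▸ h

theorem liftL {f : List Bool → Env → List ℕ} (h : Cm κ f) : Lq κ q β fun x _ ρ => f x ρ :=
  M.lift f h

theorem lift {f : List Bool → Env → ℕ} (h : Cn κ f) : Nq κ q β fun x _ ρ => f x ρ := M.lift _ h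

theorem liftP {P : List Bool → Env → Prop} (h : PR.Cp κ P) : Pq κ q β fun x _ ρ => P x ρ :=
  M.lift _ h

theorem c (n : ℕ) : Nq κ q β fun _ _ _ => n := lift (PR.K.c n)

theorem v (i : ℕ) : Nq κ q β fun _ _ ρ => hd (ρ i) := lift (PR.K.v i)

theorem vL (i : ℕ) : Lq κ q β fun _ _ ρ => ρ i := liftL (PR.K.vL i)

theorem wL {f : List Bool → Orc → Env → List ℕ} (h : Lq κ q β f) :
    Lq κ q β fun x g ρ => f x g (tl ρ) := M.ren f (· + 1) h

theorem w {f : List Bool → Orc → Env → ℕ} (h : Nq κ q β f) :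
    Nq κ q β fun x g ρ => f x g (tl ρ) := wL h

theorem wP {P : List Bool → Orc → Env → Prop} (h : Pq κ q β P) :
    Pq κ q β fun x g ρ => P x g (tl ρ) := wL h

/-- Substitution: the argument is evaluated once. -/
theorem app {f : List Bool → Orc → Env → ℕ → ℕ} {a : List Bool → Orc → Env → ℕ} (hf : Fq κ q β f)
    (ha : Nq κ q β a) : Nq κ q β fun x g ρ => f x g ρ (a x g ρ) :=
  M.bind (fun x g ρ => [a x g ρ]) (fun x g ρ => [f x g (tl ρ) (hd (ρ 0))]) ha hf

/-- Substitution of a list. -/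
theorem appL {f : List Bool → Orc → Env → List ℕ → List ℕ} {l : List Bool → Orc → Env → List ℕ}
    (hf : Lq κ q β fun x g ρ => f x g (tl ρ) (ρ 0)) (hl : Lq κ q β l) :
    Lq κ q β fun x g ρ => f x g ρ (l x g ρ) :=
  M.bind l (fun x g ρ => f x g (tl ρ) (ρ 0)) hl hf

theorem appLN {f : List Bool → Orc → Env → List ℕ → ℕ} {l : List Bool → Orc → Env → List ℕ}
    (hf : Nq κ q β fun x g ρ => f x g (tl ρ) (ρ 0)) (hl : Lq κ q β l) :
    Nq κ q β fun x g ρ => f x g ρ (l x g ρ) :=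
  appL (f := fun x g ρ l => [f x g ρ l]) hf hl

theorem appNL {f : List Bool → Orc → Env → ℕ → List ℕ} {a : List Bool → Orc → Env → ℕ}
    (hf : Lq κ q β fun x g ρ => f x g (tl ρ) (hd (ρ 0))) (ha : Nq κ q β a) :
    Lq κ q β fun x g ρ => f x g ρ (a x g ρ) :=
  M.bind (fun x g ρ => [a x g ρ]) (fun x g ρ => f x g (tl ρ) (hd (ρ 0))) ha hf

theorem wF {f : List Bool → Orc → Env → ℕ → ℕ} (hf : Fq κ q β f) :
    Fq κ q β fun x g ρ => f x g (tl ρ) :=
  M.ren (fun x g ρ => [f x g (tl ρ) (hd (ρ 0))]) (fun i => match i with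
    | 0 => 0
    | i + 1 => i + 2) hf

theorem appP {P : List Bool → Orc → Env → ℕ → Prop} {a : List Bool → Orc → Env → ℕ}
    (hP : P1q κ q β P) (ha : Nq κ q β a) : Pq κ q β fun x g ρ => P x g ρ (a x g ρ) :=
  app (f := fun x g ρ m => if P x g ρ m then 1 else 0) hP ha

theorem wP1 {P : List Bool → Orc → Env → ℕ → Prop} (hP : P1q κ q β P) :
    P1q κ q β fun x g ρ => P x g (tl ρ) :=
  wF (f := fun x g ρ m => if P x g ρ m then 1 else 0) hP

theorem call {l : List Bool → Orc → Env → List ℕ} (hl : Lq κ q β l)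
    (h : ∀ x g ρ, ∀ a ∈ l x g ρ, a ≤ β x) : Nq κ q β fun x g ρ => g (l x g ρ) := M.call l hl h

section
variable {a b e f : List Bool → Orc → Env → ℕ}

theorem op1 (φ : List Bool → ℕ → ℕ) (h : Cn κ fun x ρ => φ x (hd (ρ 0))) (ha : Nq κ q β a) :
    Nq κ q β fun x g ρ => φ x (a x g ρ) := M.bind _ _ ha (M.lift _ h)

theorem op2 (φ : List Bool → ℕ → ℕ → ℕ) (h : Cn κ fun x ρ => φ x (hd (ρ 0)) (hd (ρ 1)))
    (ha : Nq κ q β a) (hb : Nq κ q β b) : Nq κ q β fun x g ρ => φ x (a x g ρ) (b x g ρ) :=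
  M.bind _ _ hb (M.bind _ _ (wL ha) (M.lift _ h))

theorem op3 (φ : List Bool → ℕ → ℕ → ℕ → ℕ)
    (h : Cn κ fun x ρ => φ x (hd (ρ 0)) (hd (ρ 1)) (hd (ρ 2))) (ha : Nq κ q β a) (hb : Nq κ q β b)
    (he : Nq κ q β e) : Nq κ q β fun x g ρ => φ x (a x g ρ) (b x g ρ) (e x g ρ) :=
  M.bind _ _ he (M.bind _ _ (wL hb) (M.bind _ _ (wL (wL ha)) (M.lift _ h)))

theorem add (ha : Nq κ q β a) (hb : Nq κ q β b) : Nq κ q β fun x g ρ => a x g ρ + b x g ρ :=
  op2 (fun _ => (· + ·)) (PR.K.add (PR.K.v 0) (PR.K.v 1)) ha hb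

theorem sub (ha : Nq κ q β a) (hb : Nq κ q β b) : Nq κ q β fun x g ρ => a x g ρ - b x g ρ :=
  op2 (fun _ => (· - ·)) (PR.K.sub (PR.K.v 0) (PR.K.v 1)) ha hb

theorem mul (ha : Nq κ q β a) (hb : Nq κ q β b) : Nq κ q β fun x g ρ => a x g ρ * b x g ρ :=
  op2 (fun _ => (· * ·)) (PR.K.mul (PR.K.v 0) (PR.K.v 1)) ha hb

theorem div (ha : Nq κ q β a) (hb : Nq κ q β b) : Nq κ q β fun x g ρ => a x g ρ / b x g ρ :=
  op2 (fun _ => (· / ·)) (PR.K.div (PR.K.v 0) (PR.K.v 1)) ha hb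

theorem mod (ha : Nq κ q β a) (hb : Nq κ q β b) : Nq κ q β fun x g ρ => a x g ρ % b x g ρ :=
  op2 (fun _ => (· % ·)) (PR.K.mod (PR.K.v 0) (PR.K.v 1)) ha hb

theorem min (ha : Nq κ q β a) (hb : Nq κ q β b) :
    Nq κ q β fun x g ρ => min (a x g ρ) (b x g ρ) :=
  op2 (fun _ => Min.min) (PR.K.min (PR.K.v 0) (PR.K.v 1)) ha hb

theorem max (ha : Nq κ q β a) (hb : Nq κ q β b) :
    Nq κ q β fun x g ρ => max (a x g ρ) (b x g ρ) :=
  op2 (fun _ => Max.max) (PR.K.max (PR.K.v 0) (PR.K.v 1)) ha hb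

theorem pow (n : ℕ) (ha : Nq κ q β a) : Nq κ q β fun x g ρ => a x g ρ ^ n :=
  op1 (fun _ a => a ^ n) (PR.K.pow n (PR.K.v 0)) ha

theorem gt {l : List Bool → Orc → Env → List ℕ} (hl : Lq κ q β l) (ha : Nq κ q β a) :
    Nq κ q β fun x g ρ => gt (l x g ρ) (a x g ρ) :=
  M.bind _ _ ha (M.bind _ _ (wL hl) (M.lift _ (PR.K.gt (PR.K.vL 0) (PR.K.v 1))))

/-- The argument list of a call (no call is repeated). -/
theorem pk {n m : List Bool → ℕ} {l : List Bool → Orc → Env → List ℕ} (hk : ∀ x, n x ≤ κ x)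
    (hn : Cn κ fun x _ => n x) (hm : Cn κ fun x _ => m x) (ha : Nq κ q β a) (hl : Lq κ q β l) :
    Lq κ q β fun x g ρ => pk (n x) (m x) (a x g ρ) (l x g ρ) :=
  M.bind _ _ ha (M.bind _ _ (wL hl) (M.lift _ ((kitOne κ).tab
    (fun x ρ e => Min.min (if e = 0 then hd (ρ 1) else ED.gt (ρ 0) (e - 1)) (m x)) hk hn
    (PR.K.min (PR.K.ite (PR.K.eq (PR.K.v 0) (PR.K.c 0)) (PR.K.v 2)
      (PR.K.gt (PR.K.vL 1) (PR.K.sub (PR.K.v 0) (PR.K.c 1)))) hm))))

theorem le (ha : Nq κ q β a) (hb : Nq κ q β b) : Pq κ q β fun x g ρ => a x g ρ ≤ b x g ρ :=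
  op2 (fun _ a b => @ite _ (a ≤ b) (propDecidable _) 1 0) (PR.K.le (PR.K.v 0) (PR.K.v 1)) ha hb

theorem lt (ha : Nq κ q β a) (hb : Nq κ q β b) : Pq κ q β fun x g ρ => a x g ρ < b x g ρ :=
  le (add ha (c 1)) hb

theorem eq (ha : Nq κ q β a) (hb : Nq κ q β b) : Pq κ q β fun x g ρ => a x g ρ = b x g ρ :=
  op2 (fun _ a b => @ite _ (a = b) (propDecidable _) 1 0) (PR.K.eq (PR.K.v 0) (PR.K.v 1)) ha hb

variable {P R : List Bool → Orc → Env → Prop}

theorem iteL {i : ∀ x g ρ, Decidable (P x g ρ)} {l l' : List Bool → Orc → Env → List ℕ}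
    (hP : Pq κ q β P) (hl : Lq κ q β l) (hl' : Lq κ q β l') :
    Lq κ q β fun x g ρ => @ite _ (P x g ρ) (i x g ρ) (l x g ρ) (l' x g ρ) := by
  refine cgL (M.bind _ _ hP (M.ifz _ _ (wL hl') (wL hl))) fun x g ρ => ?_
  by_cases h : P x g ρ <;> simp [h, hd, cons] <;> rfl

theorem ite {i : ∀ x g ρ, Decidable (P x g ρ)} (hP : Pq κ q β P) (ha : Nq κ q β a)
    (hb : Nq κ q β b) : Nq κ q β fun x g ρ => @ite _ (P x g ρ) (i x g ρ) (a x g ρ) (b x g ρ) :=
  cgL (iteL (i := i) hP ha hb) fun x g ρ => by by_cases h : P x g ρ <;> simp [h]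

theorem not (hP : Pq κ q β P) : Pq κ q β fun x g ρ => ¬P x g ρ :=
  cg (ite (i := fun _ _ _ => propDecidable _) hP (c 0) (c 1)) fun x g ρ => by
    by_cases h : P x g ρ <;> simp [h]

theorem ne (ha : Nq κ q β a) (hb : Nq κ q β b) : Pq κ q β fun x g ρ => a x g ρ ≠ b x g ρ :=
  not (eq ha hb)

theorem and (hP : Pq κ q β P) (hR : Pq κ q β R) : Pq κ q β fun x g ρ => P x g ρ ∧ R x g ρ :=
  cg (ite (i := fun _ _ _ => propDecidable _) hP hR (c 0)) fun x g ρ => by
    by_cases h : P x g ρ <;> simp [h]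

theorem or (hP : Pq κ q β P) (hR : Pq κ q β R) : Pq κ q β fun x g ρ => P x g ρ ∨ R x g ρ :=
  cg (ite (i := fun _ _ _ => propDecidable _) hP (c 1) hR) fun x g ρ => by
    by_cases h : P x g ρ <;> simp [h]

theorem imp (hP : Pq κ q β P) (hR : Pq κ q β R) : Pq κ q β fun x g ρ => P x g ρ → R x g ρ :=
  cgP (or (not hP) hR) fun _ _ _ => imp_iff_not_or.symm

end

theorem h_bd {h : List Bool → Orc → Env → ℕ → ℕ} (hh : Fq κ q β h) :
    ∃ c, ∀ x g ρ B, Bq κ q β x g ρ B → ∀ m ≤ B, h x g ρ m ≤ pw B c := by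
  obtain ⟨c, hc, -⟩ := hh
  exact ⟨c, fun x g ρ B k m hm =>
    hc x g (cons [m] ρ) B ⟨Ara.bd_cons k.1 hm, k.2⟩ _ (List.mem_singleton_self _)⟩

section
variable {n : List Bool → Orc → Env → ℕ}

theorem iterN {z : List Bool → Orc → Env → ℕ} (f : List Bool → Orc → Env → ℕ → ℕ → ℕ)
    (hn : Nq κ q β n) (hk : ∀ x g ρ, n x g ρ ≤ q x) (hz : Nq κ q β z)
    (hf : Nq κ q β fun x g ρ => f x g (tl (tl ρ)) (hd (ρ 1)) (hd (ρ 0)))
    (hb : ∃ c, ∀ x g ρ B, Bq κ q β x g ρ B → ∀ m ≤ B, itr (f x g ρ) (z x g ρ) m ≤ pw B c) :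
    Nq κ q β fun x g ρ => itr (f x g ρ) (z x g ρ) (n x g ρ) := by
  obtain ⟨c, hc⟩ := hb
  refine cgL (M.iter n _ _ hn hk hz hf ⟨c, fun x g ρ B h m hm a ha => ?_⟩)
    fun x g ρ => Ara.itr_one (f x g ρ) _ _
  have e := Ara.itr_one (f x g ρ) (z x g ρ) m
  rw [List.mem_singleton.1 (e ▸ ha : a ∈ [itr (f x g ρ) (z x g ρ) m])]
  exact hc x g ρ B h m (hm.trans ((hk x g ρ).trans h.hq))

theorem fold {z : List Bool → Orc → Env → ℕ} (f : List Bool → Orc → Env → ℕ → ℕ → ℕ)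
    (h : List Bool → Orc → Env → ℕ → ℕ) (hn : Nq κ q β n) (hk : ∀ x g ρ, n x g ρ ≤ q x)
    (hz : Nq κ q β z) (hf : Nq κ q β fun x g ρ => f x g (tl (tl ρ)) (hd (ρ 1)) (hd (ρ 0)))
    (hh : Fq κ q β h) (hb : ∀ x g ρ m acc b, acc ≤ b → h x g ρ m ≤ b → f x g ρ m acc ≤ b) :
    Nq κ q β fun x g ρ => itr (f x g ρ) (z x g ρ) (n x g ρ) := by
  obtain ⟨c, hc⟩ := h_bd hh
  have hz' := hz
  obtain ⟨c', hc', -⟩ := hz'
  refine iterN f hn hk hz hf ⟨c + c', fun x g ρ B k m hm => ?_⟩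
  exact Ara.itr_bd (· ≤ pw B (c + c')) _ _ _
    ((hc' x g ρ B k _ (List.mem_singleton_self _)).trans (pw_mono le_rfl (by omega)))
    fun j hj acc hacc => hb x g ρ j acc _ hacc
      ((hc x g ρ B k j (by omega)).trans (pw_mono le_rfl (by omega)))

theorem foldL {z : List Bool → Orc → Env → List ℕ}
    (f : List Bool → Orc → Env → ℕ → List ℕ → List ℕ) (h : List Bool → Orc → Env → ℕ → ℕ)
    (hn : Nq κ q β n) (hk : ∀ x g ρ, n x g ρ ≤ q x) (hz : Lq κ q β z)
    (hf : Lq κ q β fun x g ρ => f x g (tl (tl ρ)) (hd (ρ 1)) (ρ 0)) (hh : Fq κ q β h)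
    (hb : ∀ x g ρ m acc b, (∀ a ∈ acc, a ≤ b) → h x g ρ m ≤ b → ∀ a ∈ f x g ρ m acc, a ≤ b) :
    Lq κ q β fun x g ρ => itr (f x g ρ) (z x g ρ) (n x g ρ) := by
  obtain ⟨c, hc⟩ := h_bd hh
  have hz' := hz
  obtain ⟨c', hc', -⟩ := hz'
  refine M.iter _ _ _ hn hk hz hf ⟨c + c', fun x g ρ B k m hm => ?_⟩
  have hm' := hm.trans ((hk x g ρ).trans k.hq)
  exact Ara.itr_bd (fun l : List ℕ => ∀ a ∈ l, a ≤ pw B (c + c')) (f x g ρ) _ _
    (fun a ha => (hc' x g ρ B k a ha).trans (pw_mono le_rfl (by omega)))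
    fun j hj acc hacc => hb x g ρ j acc _ hacc
      ((hc x g ρ B k j (by omega)).trans (pw_mono le_rfl (by omega)))

theorem sum (h : List Bool → Orc → Env → ℕ → ℕ) (hn : Nq κ q β n) (hk : ∀ x g ρ, n x g ρ ≤ q x)
    (hh : Fq κ q β h) : Nq κ q β fun x g ρ => ∑ m ∈ Finset.range (n x g ρ), h x g ρ m := by
  obtain ⟨d, hc⟩ := h_bd hh
  refine cg (iterN (fun x g ρ m acc => acc + h x g ρ m) hn hk (c 0) (add (v 0) (wL hh))
    ⟨d + 1, fun x g ρ B k m hm => ?_⟩) fun x g ρ => by simp only [Ara.itr_sum, zero_add]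
  rw [Ara.itr_sum, Ara.pw_succ, zero_add]
  have h1 : ∑ i ∈ Finset.range m, h x g ρ i ≤ (Finset.range m).card • pw B d :=
    Finset.sum_le_card_nsmul _ _ _ fun i hi =>
      hc x g ρ B k i (by have := Finset.mem_range.1 hi; omega)
  rw [Finset.card_range, smul_eq_mul, mul_comm] at h1
  exact h1.trans (Nat.mul_le_mul_left _ (by omega))

theorem tab {m : List Bool → ℕ} (f : List Bool → Orc → Env → ℕ → ℕ) (h1 : ∀ x, m x ≤ κ x)
    (h2 : ∀ x, m x ≤ q x) (hm : Cn κ fun x _ => m x) (hf : Fq κ q β f) :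
    Lq κ q β fun x g ρ => tab (m x) (f x g ρ) := M.tabq _ _ h1 h2 hm hf

variable {P : List Bool → Orc → Env → ℕ → Prop}

theorem cnt (hn : Nq κ q β n) (hk : ∀ x g ρ, n x g ρ ≤ q x) (hP : P1q κ q β P) :
    Nq κ q β fun x g ρ => PR.cnt (n x g ρ) (P x g ρ) :=
  cg (sum (fun x g ρ m => if P x g ρ m then 1 else 0) hn hk hP) fun x g ρ => by
    rw [PR.cnt, Finset.card_filter]

theorem ex (hn : Nq κ q β n) (hk : ∀ x g ρ, n x g ρ ≤ q x) (hP : P1q κ q β P) :
    Pq κ q β fun x g ρ => ∃ m < n x g ρ, P x g ρ m :=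
  cgP (lt (c 0) (cnt hn hk hP)) fun x g ρ => by
    simp [PR.cnt, Finset.card_pos, Finset.Nonempty]

theorem all (hn : Nq κ q β n) (hk : ∀ x g ρ, n x g ρ ≤ q x) (hP : P1q κ q β P) :
    Pq κ q β fun x g ρ => ∀ m < n x g ρ, P x g ρ m :=
  cgP (not (ex (P := fun x g ρ m => ¬P x g ρ m) hn hk (not hP))) fun x g ρ => by simp

theorem lst_eq (n : ℕ) (P : ℕ → Prop) : (if ∃ m < n, P m then
    PR.cnt n fun m => ∀ j < n, j ≤ m → ¬P j else 0) = PR.lst n P := by
  rw [← PR.K.lst_eq]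
  congr 1
  unfold PR.cnt
  congr 1
  ext m
  simp only [Finset.mem_filter, Finset.mem_range]
  exact and_congr_right fun hm =>
    ⟨fun h j hj => h j (by omega) (by omega), fun h j _ hj => h j (by omega)⟩

theorem lst (hn : Nq κ q β n) (hk : ∀ x g ρ, n x g ρ ≤ q x) (hP : P1q κ q β P) :
    Nq κ q β fun x g ρ => PR.lst (n x g ρ) (P x g ρ) :=
  cg (ite (i := fun _ _ _ => propDecidable _) (ex hn hk hP)
    (cnt (P := fun x g ρ m => ∀ j < n x g ρ, j ≤ m → ¬P x g ρ j) hn hk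
      (all (P := fun x g ρ j => j ≤ hd (ρ 0) → ¬P x g (tl ρ) j) (w hn) (fun _ _ _ => hk _ _ _)
        (imp (le (v 0) (v 1)) (not (wP1 hP))))) (c 0))
    fun _ _ _ => by convert lst_eq _ _

theorem it {f : List Bool → Orc → Env → ℕ → ℕ} {t d : List Bool → Orc → Env → ℕ} (hn : Nq κ q β n)
    (hf : Fq κ q β f) (ht : Nq κ q β t) (hk : ∀ x g ρ, t x g ρ ≤ q x) (hd : Nq κ q β d) :
    Nq κ q β fun x g ρ => PR.it (n x g ρ) (f x g ρ) (t x g ρ) (d x g ρ) :=
  fold (fun x g ρ _ a => Min.min (f x g ρ a) (n x g ρ)) (fun x g ρ _ => n x g ρ) ht hk hd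
    (min (app (wF (wF hf)) (v 0)) (w (w hn))) (w hn)
    fun _ _ _ _ _ _ _ h => (min_le_right _ _).trans h

theorem amin {f : List Bool → Orc → Env → ℕ → ℕ} (hn : Nq κ q β n) (hk : ∀ x g ρ, n x g ρ ≤ q x)
    (hf : Fq κ q β f) : Nq κ q β fun x g ρ => PR.amin (n x g ρ) (f x g ρ) :=
  lst (P := fun x g ρ m => ∀ m' < n x g ρ, f x g ρ m ≤ f x g ρ m') hn hk
    (all (P := fun x g ρ m' => f x g (tl ρ) (hd (ρ 0)) ≤ f x g (tl ρ) m') (w hn)
      (fun _ _ _ => hk _ _ _) (le (app (wF (wF hf)) (v 1)) (app (wF (wF hf)) (v 0))))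

theorem sel (hn : Nq κ q β n) (hk : ∀ x g ρ, n x g ρ + 1 ≤ q x) (hP : P1q κ q β P) :
    Fq κ q β fun x g ρ => PR.sel (n x g ρ) (P x g ρ) :=
  cg (lst (P := fun x g ρ y => y = n x g (tl ρ) ∨ (P x g (tl ρ) y ∧
      PR.cnt (Min.min y (n x g (tl ρ))) (P x g (tl ρ)) = hd (ρ 0))) (add (w hn) (c 1))
    (fun _ _ _ => hk _ _ _)
    (or (eq (v 0) (w (w hn))) (and (appP (wP1 (wP1 hP)) (v 0))
      (eq (cnt (min (v 0) (w (w hn)))
        (fun _ _ _ => (min_le_right _ _).trans ((Nat.le_succ _).trans (hk _ _ _)))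
        (wP1 (wP1 hP))) (v 1))))) fun x g ρ => by
    unfold PR.sel PR.lst
    congr 1
    ext y
    exact and_congr_right fun hy => by simp only [min_eq_left (Nat.le_of_lt_succ hy)]

end

end Q

end Pool.Agent.MP_1a6d78_lc.SC

end MrgPart2

-- ======== part 3: formerly Pool.Agent.MP_1a6d78_lc.SC.Mach
section MrgPart3

/-! Recursion of logarithmic depth with a constant number of calls is in SC. -/

namespace Pool.Agent.MP_1a6d78_lc.SC

open ED

/-- `log |x| + 1`. -/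
def lg (x : List Bool) : ℕ := Nat.log 2 x.length + 1

theorem lgC (κ : List Bool → ℕ) : Cn κ fun x _ => lg x :=
  PR.K.cg (PR.K.add (PR.K.cnt (P := fun x _ m => PR.it x.length (fun a => a / 2) (m + 1) x.length ≠ 0)
    (kitOne κ).len (PR.K.ne (PR.K.it (f := fun _ _ a => a / 2) (kitOne κ).len
      (PR.K.div (PR.K.v 0) (PR.K.c 2)) (PR.K.add (PR.K.v 0) (PR.K.c 1)) (kitOne κ).len)
      (PR.K.c 0))) (PR.K.c 1)) fun x _ => by
    have h : ∀ t, PR.it x.length (fun a => a / 2) t x.length = x.length / 2 ^ t := fun t => by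
      induction t with
      | zero => simp [PR.it, itr]
      | succ t ih =>
        unfold PR.it at ih ⊢
        simp only [itr, ih, Nat.div_div_eq_div_mul, ← pow_succ, min_eq_left (Nat.div_le_self _ _)]
    unfold lg PR.cnt
    congr 1
    refine (congrArg Finset.card ?_).trans (Finset.card_range (Nat.log 2 x.length))
    ext m
    simp only [Finset.mem_filter, Finset.mem_range, h, ne_eq, Nat.div_eq_zero_iff, not_or, not_lt]
    rcases Nat.eq_zero_or_pos x.length with k | k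
    · simp [k]
    · rw [← Nat.succ_le_iff (n := Nat.log 2 x.length), Nat.le_log_iff_pow_le (by omega) k.ne']
      refine ⟨fun h => h.2.2, fun h => ⟨?_, by positivity, h⟩⟩
      have := Nat.lt_two_pow_self (n := m + 1)
      exact lt_of_lt_of_le (by omega) h

theorem lg_le (x : List Bool) : lg x ≤ x.length + 1 := Nat.succ_le_succ (Nat.log_le_self _ _)

theorem two_lg (x : List Bool) : 2 ^ lg x ≤ (x.length + 2) ^ 2 := by
  unfold lg
  rcases Nat.eq_zero_or_pos x.length with k | k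
  · simp [k]
  · have := Nat.pow_log_le_self 2 k.ne'
    rw [pow_succ]
    nlinarith

/-- Lists of length `a log n`, numbers up to `(n + 2) ^ b`, depth `d log n`, the body makes loops
with calls of length at most `m`, the main program of length at most `(n + 2) ^ b`. -/
theorem scMach (a b d m : ℕ) (ha : 1 ≤ a) (F : List Bool → Orc → List ℕ → ℕ)
    (A : List Bool → Orc → ℕ)
    (hF : Nq (fun x => a * lg x) (fun _ => m) (fun x => (x.length + 2) ^ b)
      fun x g ρ => F x g (ρ 0))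
    (hA : Nq (fun x => a * lg x) (fun x => (x.length + 2) ^ b) (fun x => (x.length + 2) ^ b)
      fun x g _ => A x g)
    (hb : ∀ x g l, F x g l ≤ (x.length + 2) ^ b) : ∃ (M : TM) (c : ℕ), ∀ x : List Bool,
      M.out (M.run x ((x.length + 2) ^ c)).q = some (A x (rc (F x) (d * lg x)) != 0) ∧
        ∀ t i, (M.run x t).head i ≤ c * lg x ^ 3 := by
  obtain ⟨M, c, h⟩ := recQ _ _ _ _ (fun x => d * lg x) F A hF hA hb
    (PR.K.mul (PR.K.c d) (lgC _))
  obtain ⟨e, he⟩ : ∃ e, e = a + b + d + m + 1 := ⟨_, rfl⟩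
  refine ⟨M, (e + 2) * c + 2 * ((m + 2) * (c * d)) +
    c * (a + 1) * (d + 1) * (2 * (e + 2) + d * (m + 2) + 1), fun x => ?_⟩
  have l1 : 1 ≤ lg x := Nat.succ_pos _
  have l2 := lg_le x
  have p1 : ∀ k, k + 1 ≤ e → k * lg x ≤ pw x.length e := fun k hk =>
    (Nat.mul_le_mul (const_le_pw x.length k) (l2.trans (le_pw x.length (c := 1) le_rfl |>.trans'
      (by omega)))).trans ((pw_mul _ _ _).le.trans (pw_mono le_rfl hk))
  have p2 : pw x.length e + 2 ≤ pw x.length (e + 2) := by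
    have := two_mul_pw x.length e
    have : _ ≤ pw x.length (e + 2) := two_mul_pw x.length (e + 1)
    have := one_le_pw x.length e
    omega
  obtain ⟨h1, h2⟩ := h x (pw x.length e) (Nat.mul_pos ha l1) (p1 a (by omega))
    ((Nat.le_add_right _ 2).trans (le_pw _ (by omega))) (pw_mono le_rfl (by omega))
    ((const_le_pw x.length m).trans (pw_mono le_rfl (by omega))) (pw_mono le_rfl (by omega))
    (p1 d (by omega))
  constructor
  · refine Fn.halt M x h1 ?_ ▸ h1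
    have t1 : pw (pw x.length e) c ≤ (x.length + 2) ^ ((e + 2) * c) :=
      (Nat.pow_le_pow_left p2 c).trans (by rw [pw, ← pow_mul])
    have t2 : pw m (c * (d * lg x)) ≤ (x.length + 2) ^ (2 * ((m + 2) * (c * d))) := by
      calc _ ≤ (2 ^ (m + 2)) ^ (c * (d * lg x)) :=
            Nat.pow_le_pow_left Nat.lt_two_pow_self.le _
        _ = (2 ^ lg x) ^ ((m + 2) * (c * d)) := by rw [← pow_mul, ← pow_mul]; congr 1; ring
        _ ≤ _ := (Nat.pow_le_pow_left (two_lg x) _).trans (by rw [← pow_mul])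
    exact (Nat.mul_le_mul t1 t2).trans (by
      rw [← pow_add]; exact Nat.pow_le_pow_right (by omega) (Nat.le_add_right _ _))
  · intro t i
    refine (h2 t i).trans ?_
    have s1 : Nat.log 2 (pw x.length e + 2) ≤ 2 * (e + 2) * lg x := by
      have u : x.length + 2 ≤ 2 ^ (2 * lg x) := by
        have := Nat.lt_pow_succ_log_self (b := 2) (by omega) x.length
        have u2 : 2 ^ 1 ≤ 2 ^ lg x := Nat.pow_le_pow_right (by omega) l1
        rw [two_mul, pow_add]
        unfold lg at u2 ⊢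
        rw [Nat.succ_eq_add_one] at this
        nlinarith
      have := (Nat.log_mono_right (b := 2) (p2.trans (Nat.pow_le_pow_left u (e + 2))))
      rw [← pow_mul, Nat.log_pow (by omega)] at this
      exact this.trans (le_of_eq (by ring))
    have s2 : Nat.log 2 (m + 2) ≤ m + 2 := Nat.log_le_self _ _
    have s3 : Nat.log 2 (pw x.length e + 2) + d * lg x * Nat.log 2 (m + 2) + 1 ≤
        (2 * (e + 2) + d * (m + 2) + 1) * lg x := by
      have := Nat.mul_le_mul_left (d * lg x) s2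
      nlinarith
    calc _ ≤ c * ((a + 1) * lg x) * ((d + 1) * lg x) *
          ((2 * (e + 2) + d * (m + 2) + 1) * lg x) := by gcongr <;> nlinarith
      _ = c * (a + 1) * (d + 1) * (2 * (e + 2) + d * (m + 2) + 1) * lg x ^ 3 := by ring
      _ ≤ _ := Nat.mul_le_mul_right _ (Nat.le_add_left _ _)

end Pool.Agent.MP_1a6d78_lc.SC

end MrgPart3

-- ======== part 4: formerly Pool.Agent.MP_1a6d78_lc.SC.OSub
section MrgPart4

/-! Substitution of the oracle: a hidden list is added to every call. -/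

namespace Pool.Agent.MP_1a6d78_lc.SC

open Function ED

namespace OSub

def sh (b m : ℕ) : ℕ := if m ≤ b then m else m + 1

def fa (b : ℕ) : A1 → A1
  | .push m => .push (sh b m)
  | .pop m => .pop (sh b m)
  | .inc m => .inc (sh b m)
  | .dec m => .dec (sh b m)
  | .inp d => .inp d

def fc (b : ℕ) : C1 → C1
  | .ne m => .ne (sh b m)
  | .nz m => .nz (sh b m)
  | .rd f => .rd f

def fo (b e : ℕ) (r : Prog A1 C1) : Option A1 → PO
  | some a => .act (some (fa b a))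
  | none => .seq (up (.seq r (.seq (clr 0) (mvLst e 0 (e + 1))))) (.act none)

/-- The state with the hidden list on stack `b + 1`. -/
def hid (b : ℕ) (S : List ℕ) (σ : ℕ → List ℕ) : ℕ → List ℕ := fun i =>
  if i ≤ b then σ i else if i = b + 1 then S else σ (i - 1)

theorem hid_sh (b : ℕ) (S : List ℕ) (σ : ℕ → List ℕ) (m : ℕ) : hid b S σ (sh b m) = σ m := by
  unfold hid sh
  by_cases h : m ≤ b
  · simp [h]
  · rw [if_neg h, if_neg (by omega), if_neg (by omega), Nat.add_sub_cancel]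

theorem hid_upd (b : ℕ) (S : List ℕ) (σ : ℕ → List ℕ) (m : ℕ) (l : List ℕ) :
    update (hid b S σ) (sh b m) l = hid b S (update σ m l) := by
  funext i
  simp only [update_apply, hid, sh]
  split_ifs <;> first | rfl | omega

theorem hid_len {K b h : ℕ} {S : List ℕ} {σ : ℕ → List ℕ} (hS : S.length ≤ K) (hσ : Len K (σ, h)) :
    Len K (hid b S σ, h) := fun i => by
  dsimp only [hid]
  split_ifs
  exacts [hσ _, hS, hσ _]

theorem hid_act (x : List Bool) (b : ℕ) (S : List ℕ) (a : A1) (s : S1) :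
    act1 x (fa b a) (hid b S s.1, s.2) = (hid b S (act1 x a s).1, (act1 x a s).2) := by
  cases a <;> simp only [fa, act1, hid_sh, hid_upd]

theorem sim {x : List Bool} {K β τ τ' B a b N : ℕ} {g : Orc} {φ : List ℕ → List ℕ} {S : List ℕ}
    {r : Prog A1 C1} (h1 : 1 ≤ K) (kB : K ≤ B) (hβ : β ≤ B) (hS : S.length ≤ K)
    (hτ : τ + pw B (a + 23) ≤ τ') (hb : ∀ l, ∀ y ∈ φ l, y ≤ β)
    (hr : ∀ σ : ℕ → List ℕ, (∀ y ∈ σ 0, y ≤ β) → σ (b + 1) = S → Len K (σ, 0) →
      (∀ j, N + b + 2 ≤ j → σ j = []) →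
        Ex x K r (σ, 0) (update σ (N + b + 2) (φ (σ 0)), 0) (pw B a))
    (u : Option A1) (s s' : S1) (n : ℕ) (k1 : Frm.ix u < N)
    (k2 : Ro x K β τ' (fun l => g (φ l)) u s s' n) (k3 : Len K s)
    (k4 : ∀ m, N + b ≤ m → s.1 m = []) :
    Eo x K β τ g (fo b (N + b + 2) r u) (hid b S s.1, s.2) (hid b S s'.1, s'.2) n ∧ Len K s' ∧
      ∀ m, N + b ≤ m → s'.1 m = [] := by
  obtain ⟨s, h⟩ := s
  cases u with
  | some u =>
    obtain ⟨rfl, k5, rfl⟩ := k2
    refine ⟨Exq.act ⟨(hid_act x b S u (s, h)).symm, hid_len hS k5, rfl⟩, k5, fun m hm => ?_⟩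
    cases u <;> simp only [Frm.ix] at k1 <;> simp only [act1] <;>
      first | exact (update_of_ne (by omega) _ _).trans (k4 m hm) | exact k4 m hm
  | none =>
    obtain ⟨rfl, k5, rfl, k6, rfl⟩ := k2
    have g0 : Len K (hid b S s, 0) := hid_len hS k3
    have z0 : hid b S s 0 = s 0 := if_pos (Nat.zero_le _)
    have z2 : ∀ j, N + b + 2 ≤ j → hid b S s j = [] := fun j hj => by
      rw [hid, if_neg (by omega), if_neg (by omega)]
      exact k4 _ (by omega)
    have c1 := hr (hid b S s) (z0 ▸ k5) (by simp [hid]) g0 z2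
    rw [z0] at c1
    have g1 := c1.good g0
    have c2 := ex_clr (x := x) g1 0
    have g2 := c2.good g1
    have c3 := ex_mvLst (x := x) g2 (i := N + b + 2) (j := 0) (t := N + b + 2 + 1) (B := B)
      (by omega) (by omega) (by omega)
      (by rw [update_of_ne (by omega), update_self]
          exact fun y hy => (hb _ y hy).trans hβ) (update_self _ _ _)
      (by rw [update_of_ne (by omega), update_of_ne (by omega)]; exact z2 _ (by omega))
    have g3 := c3.good g2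
    have c4 := eo_call (x := x) (β := β) (τ := τ) (g := g) g3 h1
      (by rw [update_self, update_of_ne (by omega), update_self]; exact hb _)
    refine ⟨((c1.seq (c2.seq c3)).upO.seq c4).of_eq ?_ ?_, k6, fun m hm =>
      (update_of_ne (by omega) _ _).trans (k4 m hm)⟩
    · dsimp only
      rw [← hid_upd, show sh b 0 = 0 from if_pos (Nat.zero_le _)]
      refine congrArg (·, 0) (funext fun k => ?_)
      rw [update_self, update_of_ne (show N + b + 2 ≠ 0 by omega), update_self]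
      simp only [update_apply]
      split_ifs with u1 u2
      exacts [rfl, (z2 k (by omega)).symm, rfl]
    · have h1 := PA.time B K a 2 kB
      have h3 : pw B 2 = B * B + 4 * B + 4 := by unfold pw; ring
      have h4 : K * (3 * B + 4) ≤ K * (3 * pw B 2 + 4) := Nat.mul_le_mul_left _ (by omega)
      rw [show 20 + (a + 2 + 1) = a + 23 by omega] at h1
      omega

end OSub

open OSub in
theorem osub {κ q β : List Bool → ℕ} (φ : List Bool → List ℕ → List ℕ → List ℕ)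
    (hφ : Cm κ fun x ρ => φ x (ρ 0) (ρ 1)) (hb : ∀ x l S, ∀ a ∈ φ x l S, a ≤ β x)
    {f : List Bool → Orc → Env → List ℕ} (hf : Lq κ q β f) :
    Lq κ q β fun x g ρ => f x (fun l => g (φ x l (ρ 0))) (tl ρ) := by
  obtain ⟨c, f1, f2⟩ := hf
  obtain ⟨a, -, e2⟩ := hφ
  have bq : ∀ x g ρ B, Bq κ q β x g ρ B → Bq κ q β x (fun l => g (φ x l (ρ 0))) (tl ρ) B :=
    fun x g ρ B h => ⟨(M.bo_ren (· + 1) h).1, h.2.1, fun _ => h.2.2 _⟩
  refine ⟨c + (a + 23) + 4, fun x g ρ B h y hy =>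
    (f1 x _ _ B (bq x g ρ B h) y hy).trans (pw_mono le_rfl (by omega)), fun ℓ b hℓ => ?_⟩
  obtain ⟨p, hp⟩ := f2 (fun i => ℓ (i + 1)) b fun i => hℓ _
  obtain ⟨N, hN⟩ := p.exists_bound Frm.ix
  obtain ⟨r, hr⟩ := e2 (fun i => if i = 1 then b + 1 else 0) (N + b + 2) fun i => by
    split_ifs <;> omega
  refine ⟨.seq (up (cpLst (ℓ 0) (b + 1) (b + 2) (b + 3)))
    (.seq (p.bind (fo b (N + b + 2) r) (fc b)) (up (clr (b + 1)))),
    fun x g σ B τ hB hσ hz h0 => ?_⟩
  have l0 := hℓ 0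
  have kB : κ x ≤ B := hB.1.2.1
  have hS : ∀ y ∈ σ (ℓ 0), y ≤ B := hB.1.2.2.2 0
  have a1 := ex_cpLst (x := x) hσ (i := ℓ 0) (j := b + 1) (t := b + 2) (t' := b + 3) (B := B)
    (by omega) (by omega) (by omega) (by omega) (by omega) (by omega) hB.1.1 hS
    (h0 _ (by omega)) (h0 _ (by omega)) (h0 _ (by omega))
  have a2 := hp x (fun l => g (φ x l (σ (ℓ 0)))) σ B (τ + pw B (a + 23)) (bq x g _ B hB) hσ hz h0
  obtain ⟨t, a3, rfl, -⟩ := simq (R' := Ro x (κ x) (β x) τ g) (tst' := tst1 x)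
    (fun a => Frm.ix a < N) (fun s t => t = (hid b (σ (ℓ 0)) s.1, s.2) ∧ Len (κ x) s ∧
      ∀ m, N + b ≤ m → s.1 m = []) (fo b (N + b + 2) r) (fc b) 1 le_rfl
    (by
      rintro c s t ⟨rfl, -⟩
      cases c <;> simp only [fc, tst1, hid_sh])
    (by
      rintro u s s' n t k1 k2 ⟨rfl, k3, k4⟩
      have := sim (φ := fun l => φ x l (σ (ℓ 0))) hB.1.1 kB hB.hb (hσ (ℓ 0)) le_rfl (fun l => hb x l _)
        (fun σ' v1 v2 v3 v4 => by
          have := hr x σ' B ⟨hB.1.1, kB, hB.1.2.2.1, fun i y hy => by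
            by_cases k : i = 1
            · simp only [if_pos k, v2] at hy; exact hS y hy
            · simp only [if_neg k] at hy; exact (v1 y hy).trans hB.hb⟩ v3 v4
          simpa only [if_true, zero_ne_one, if_false, v2] using this) u s s' n k1 k2 k3 k4
      exact ⟨_, this.1.weak (mul_one n).ge, rfl, this.2⟩)
    a2 hN (update σ (b + 1) (σ (ℓ 0)), 0) ⟨by
      refine congrArg (·, 0) (funext fun k => ?_)
      simp only [update_apply, hid]
      split_ifs with u1 u2 <;> first | rfl | omega | skip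
      rw [h0 _ (by omega), h0 _ (by omega)], hσ, fun m hm => h0 m (by omega)⟩
  have a4 := ex_clr (x := x) (a3.goodO (a1.good hσ)) (b + 1)
  refine (a1.upO.seq (a3.seq a4.upO)).of_eq ?_ ?_
  · refine congrArg (·, 0) (funext fun k => ?_)
    simp only [update_apply, hid]
    split_ifs with u1 u2 <;> first | rfl | omega | skip
    all_goals rw [h0 _ (by omega)]
    all_goals rw [h0 _ (by omega)]
  · have h1 : pw (q x) c * pw B (a + 23) ≤ pw B (c + (a + 23)) :=
      (Nat.mul_le_mul_right _ (pw_mono hB.hq le_rfl)).trans (pw_mul _ _ _).le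
    have h2 : pw (q x) c * τ ≤ pw (q x) (c + (a + 23) + 4) * τ :=
      Nat.mul_le_mul_right _ (pw_mono le_rfl (by omega))
    have h3 : pw B c ≤ pw B (c + (a + 23)) := pw_mono le_rfl (by omega)
    have h4 : pw B 6 ≤ pw B (c + (a + 23)) := pw_mono le_rfl (by omega)
    have h5 := two_mul_pw B (c + (a + 23))
    have h6 := two_mul_pw B (c + (a + 23) + 1)
    have h7 : pw B (c + (a + 23) + 1 + 1) ≤ pw B (c + (a + 23) + 4) := pw_mono le_rfl (by omega)
    have h8 : κ x * (13 * B + 13) + 2 + (2 * κ x + 1) ≤ pw B 6 := by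
      have := Nat.mul_le_mul_right (13 * B + 13) kB
      unfold pw
      nlinarith [Nat.zero_le (B ^ 6), Nat.zero_le (B ^ 5), Nat.zero_le (B ^ 4), Nat.zero_le (B ^ 3)]
    rw [mul_one, mul_add (pw (q x) c)]
    omega

end Pool.Agent.MP_1a6d78_lc.SC

end MrgPart4

-- marker of a merged file
example : 731051 + 195827 = 731051 + 195827 := rfl
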