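import Pool.Agent.MP_1a6d78_lc.PD.Spec2

/-! Levelled elimination with stored seeds, functional form: the last oracle is an explicit function
of `base`, `step`, `Φ` and the bounds. -/

namespace Pool.Agent.MP_1a6d78_lc.SC

open Function ED

namespace El

variable (r β Q : ℕ) (base : List ℕ → ℕ) (step : ℕ → ℕ → Orc → List ℕ → ℕ) (Φ : ℕ → Orc → ℕ)

/-- The oracles of the levels, each seed being the first one below `Q` with the least potential. -/
noncomputable def chain : ℕ → Orc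
  | 0 => nrm r β base
  | j + 1 => nrm r β (step (PR.amin Q fun q => Φ (j + 1) (nrm r β (step q j (chain j)))) j (chain j))

variable {r β Q base step Φ}

theorem amin_le (Q : ℕ) (f : ℕ → ℕ) : PR.amin Q f ≤ Q := by
  rcases Nat.eq_zero_or_pos Q with k | k
  · rw [PR.amin, PR.lst_none (by omega)]; exact Nat.zero_le _
  · exact (PR.amin_spec f k).1.le

theorem amin_congr {Q : ℕ} {f f' : ℕ → ℕ} (h : ∀ q < Q, f q = f' q) :
    PR.amin Q f = PR.amin Q f' := by
  unfold PR.amin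
  exact PR.lst_congr fun i hi => forall₂_congr fun m hm => by rw [h i hi, h m hm]

theorem runF {κ J D : ℕ} (hJ : J < D) (hβ : J ≤ β) (hκ : r + 1 + J ≤ κ) (hQ : Q ≤ β)
    (S : ℕ → List ℕ) (o : ℕ → Orc)
    (hS : S = itr (nxt r κ β Q Φ (rc (body r κ β base step) D)) (tab κ fun _ => 0))
    (ho : o = fun j l => rc (body r κ β base step) D (cl r κ β l (upd κ (S j) 0 j))) :
    ∀ j ≤ J, (∀ i < j, gt (S j) (r + 1 + i) ≤ Q) ∧ o j = chain r β Q base step Φ j := by
  have key : ∀ j ≤ J, ∀ T : List ℕ, (∀ i < j, gt T (r + 1 + i) ≤ Q) →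
      (fun l => rc (body r κ β base step) D (cl r κ β l (upd κ T 0 j))) =
        lv r β base step (fun i => gt T (r + 1 + i)) j := fun j hj T hT =>
    rc_lv _ j D _ (by omega) (by omega) (by omega) (by rw [gt_upd _ _ _ (by omega), if_pos rfl])
      fun i hi => ⟨by rw [gt_upd _ _ _ (by omega), if_neg (by omega)], (hT i hi).trans hQ⟩
  intro j
  induction j with
  | zero =>
    intro hj
    exact ⟨fun _ h => absurd h (by omega), by
      rw [ho]; exact key 0 hj _ fun _ h => absurd h (by omega)⟩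
  | succ j ih =>
    intro hj
    obtain ⟨i1, i2⟩ := ih (by omega)
    have e : ∀ q ≤ Q, (∀ i < j + 1, gt (upd κ (S j) (r + 1 + j) q) (r + 1 + i) ≤ Q) ∧
        (fun l => rc (body r κ β base step) D
          (cl r κ β l (upd κ (upd κ (S j) (r + 1 + j) q) 0 (j + 1)))) =
            nrm r β (step q j (o j)) := fun q hq => by
      have a : ∀ i < j + 1, gt (upd κ (S j) (r + 1 + j) q) (r + 1 + i) ≤ Q := fun i hi => by
        rw [gt_upd _ _ _ (by omega)]
        split_ifs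
        exacts [hq, i1 i (by omega)]
      refine ⟨a, ?_⟩
      rw [key _ hj _ a, lv, gt_upd _ _ _ (by omega), if_pos rfl, ho]
      dsimp only
      rw [key j (by omega) _ i1, lv_congr j fun i hi => ?_]
      rw [gt_upd _ _ _ (by omega), if_neg (by omega)]
    have eS : S (j + 1) = nxt r κ β Q Φ (rc (body r κ β base step) D) j (S j) := by rw [hS]; rfl
    have eo : o (j + 1) = fun l => rc (body r κ β base step) D
        (cl r κ β l (upd κ (S (j + 1)) 0 (j + 1))) := by rw [ho]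
    rw [eo, eS, nxt]
    refine ⟨(e _ (amin_le _ _)).1, ?_⟩
    rw [(e _ (amin_le _ _)).2, chain, ← i2,
      amin_congr (f' := fun q => Φ (j + 1) (nrm r β (step q j (o j)))) fun q hq => by
        rw [(e q hq.le).2]]

/-- An invariant of all seeds holds along the chain. -/
theorem chain_inv {J : ℕ} {Good : ℕ → Orc → Prop} (h0 : Good 0 (nrm r β base))
    (hs : ∀ j < J, ∀ g q, q ≤ Q → Good j g → Good (j + 1) (nrm r β (step q j g))) :
    ∀ j ≤ J, Good j (chain r β Q base step Φ j)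
  | 0, _ => h0
  | j + 1, hj => hs j hj _ _ (amin_le _ _) (chain_inv h0 hs j (by omega))

/-- The potential vanishes at the end of the chain. -/
theorem chain_good {K L J : ℕ} {Good : ℕ → Orc → Prop} (hK : 1 ≤ K) (e : J = K * L)
    (h0 : Good 0 (nrm r β base)) (hΦ : Φ 0 (nrm r β base) < 2 ^ L)
    (hs : ∀ j < J, ∀ g q, q ≤ Q → Good j g → Good (j + 1) (nrm r β (step q j g)))
    (hp : ∀ j < J, ∀ g, Good j g →
      ∃ q < Q, Φ (j + 1) (nrm r β (step q j g)) * K ≤ Φ j g * (K - 1)) :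
    Good J (chain r β Q base step Φ J) ∧ Φ J (chain r β Q base step Φ J) = 0 := by
  have G := chain_inv (Φ := Φ) h0 hs
  have H := half hK (fun j => Φ j (chain r β Q base step Φ j)) L fun j hj => by
    obtain ⟨q, hq, k⟩ := hp j (by omega) _ (G j (by omega))
    have := (PR.amin_spec (fun q => Φ (j + 1) (nrm r β (step q j (chain r β Q base step Φ j))))
      (show 0 < Q by omega)).2 q hq
    exact (Nat.mul_le_mul_right _ this).trans k
  rw [← e] at H
  refine ⟨G J le_rfl, ?_⟩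
  by_contra k
  exact absurd ((Nat.le_mul_of_pos_left _ (Nat.pos_of_ne_zero k)).trans H) hΦ.not_ge

theorem pow_lt_lg (x : List Bool) (b0 : ℕ) : (x.length + 2) ^ b0 < 2 ^ ((2 * b0 + 1) * lg x) := by
  have l1 : 1 ≤ lg x := Nat.succ_pos _
  have u : x.length + 2 ≤ 2 ^ (2 * lg x) := by
    have := Nat.lt_pow_succ_log_self (b := 2) (by omega) x.length
    have u2 : 2 ^ 1 ≤ 2 ^ lg x := Nat.pow_le_pow_right (by omega) l1
    rw [two_mul, pow_add]
    unfold lg at u2 ⊢
    rw [Nat.succ_eq_add_one] at this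
    nlinarith
  exact (Nat.pow_le_pow_left u b0).trans_lt (by
    rw [← pow_mul]
    exact Nat.pow_lt_pow_right (by omega) (by nlinarith))

end El

open El in
/-- The machine answers with the oracle at the end of the chain of `J * lg x` levels. -/
theorem elimF (r m b J : ℕ) (hb : 1 ≤ b) (hJ : J ≤ 2 ^ (b - 1))
    (β : List Bool → ℕ) (hβ : β = fun x => (x.length + 2) ^ b)
    (base : List Bool → List ℕ → ℕ) (step : List Bool → ℕ → ℕ → Orc → List ℕ → ℕ)
    (Φ ans : List Bool → ℕ → Orc → ℕ) (W : List Bool → ℕ)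
    (hC : ∀ κ : List Bool → ℕ, (∀ x, r ≤ κ x) → (Cn κ fun x ρ => base x (ρ 0)) ∧
      (Nq κ (fun _ => m) β fun x g ρ => step x (hd (ρ 0)) (hd (ρ 1)) g (ρ 2)) ∧
      (Nq κ β β fun x g ρ => Φ x (hd (ρ 0)) g) ∧ (Nq κ β β fun x g ρ => ans x (hd (ρ 0)) g) ∧
      Cn κ fun x _ => W x)
    (hQ : ∀ x, W x ≤ β x) :
    ∃ (M : TM) (c : ℕ), ∀ x : List Bool,
      M.out (M.run x ((x.length + 2) ^ c)).q = some (ans x (J * lg x)
        (chain r (β x) (W x) (base x) (step x) (Φ x) (J * lg x)) != 0) ∧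
        ∀ t i, (M.run x t).head i ≤ c * lg x ^ 3 := by
  obtain ⟨κ, eκ⟩ : ∃ κ : List Bool → ℕ, κ = fun x => (J + r + 1) * lg x := ⟨_, rfl⟩
  have l1 : ∀ x, 1 ≤ lg x := fun _ => Nat.succ_pos _
  have k1 : ∀ x, r + 1 + J * lg x ≤ κ x := fun x => by have := l1 x; rw [eκ]; nlinarith
  have b1 : ∀ x, J * lg x ≤ β x := fun x => by
    obtain ⟨b, rfl⟩ : ∃ e, b = e + 1 := ⟨b - 1, by omega⟩
    rw [hβ]
    exact Nat.mul_le_mul (hJ.trans (Nat.pow_le_pow_left (by omega) _))
      ((lg_le x).trans (Nat.le_succ _))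
  have cκ : Cn κ fun x _ => κ x := PR.K.cg (PR.K.mul (PR.K.c _) (lgC κ)) fun x _ => by rw [eκ]
  have cβ : Cn κ fun x _ => β x :=
    PR.K.cg (PR.K.pow b (PR.K.add (kitOne κ).len (PR.K.c 2))) fun x _ => by rw [hβ]
  have cJ : Cn κ fun x _ => J * lg x := PR.K.mul (PR.K.c _) (lgC κ)
  obtain ⟨c1, c2, c3, c4, c5⟩ := hC κ fun x => by have := k1 x; omega
  have ca : Cm κ fun x ρ => arg r (β x) (ρ 0) :=
    (kitOne κ).tab (fun x ρ i => min (β x) (gt (ρ 0) (i + 1))) (fun x => by have := k1 x; omega)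
      (PR.K.c r) (PR.K.min cβ (PR.K.gt (PR.K.vL 1) (PR.K.add (PR.K.v 0) (PR.K.c 1))))
  have g0 : ∀ i, Nq κ (fun _ => m) β fun _ _ ρ => gt (ρ i) 0 := fun i => Q.gt (Q.vL i) (Q.c 0)
  have hF : Nq κ (fun _ => m) β fun x g ρ => body r (κ x) (β x) (base x) (step x) g (ρ 0) :=
    Q.min (Q.lift cβ) (Q.ite (Q.eq (g0 0) (Q.c 0)) (Q.lift ((kitA κ).bind _ _ ca c1))
      (M.bind _ _ (Q.liftL ca) (M.bind _ _ (Q.sub (g0 1) (Q.c 1))
        (M.bind _ _ (Q.gt (Q.vL 2) (Q.add (Q.c r) (g0 2)))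
          (M.bind _ _ (updC cκ (Q.vL 3) (Q.c 0) (Q.v 1))
            (osub (fun x l S => cl r (κ x) (β x) l S) (clC r cκ cβ)
              (fun _ _ _ => cl_le _ _ _ _ _) c2))))))
  have hS : Lq κ β β fun x g _ => itr (nxt r (κ x) (β x) (W x) (Φ x) g) (tab (κ x) fun _ => 0)
      (J * lg x) :=
    Q.foldL (fun x g _ => nxt r (κ x) (β x) (W x) (Φ x) g) (fun x _ _ _ => W x) (Q.lift cJ)
      (fun x _ _ => b1 x) (Q.liftL ((kitOne κ).tab (fun _ _ _ => 0) (fun _ => le_rfl) cκ (PR.K.c 0)))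
      (updC cκ (Q.vL 0) (Q.add (Q.c (r + 1)) (Q.v 1)) (Q.amin (Q.lift c5) (fun x _ _ => hQ x)
        (topC r cκ cβ c3 (updC cκ (Q.vL 1) (Q.add (Q.c (r + 1)) (Q.v 2)) (Q.v 0))
          (Q.add (Q.v 2) (Q.c 1))))) (Q.lift c5)
      fun x g _ j S B hS hB a ha => by
        obtain ⟨e, _, rfl⟩ := List.mem_map.1 ha
        split_ifs
        · exact (amin_le _ _).trans hB
        · rw [gt, List.getD_eq_getElem?_getD]
          rcases k : S[e]? with _ | y
          exacts [Nat.zero_le _, hS y (List.mem_of_getElem? k)]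
  have hA := topC r cκ cβ c4 hS (Q.lift cJ)
  subst hβ eκ
  obtain ⟨M, c, h⟩ := scMach (J + r + 1) b (J + 1) m (by omega) _ _ hF hA
    fun _ _ _ => min_le_left _ _
  refine ⟨M, c, fun x => ?_⟩
  have R := (runF (Φ := Φ x) (base := base x) (step := step x) (D := (J + 1) * lg x)
    (J := J * lg x) (by have := l1 x; nlinarith) (b1 x) (k1 x) (hQ x) _ _ rfl rfl _ le_rfl).2
  rw [← R]
  exact h x

end Pool.Agent.MP_1a6d78_lc.SC
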